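import Mathlib

set_option autoImplicit false
open TensorProduct LinearMap

namespace Pool.Agent.H.MP_57c94c_al

/-- Functions on a finite group. -/
def F (k G : Type) : Type := G → k

variable {k G : Type} [Field k]

instance : CommRing (F k G) := inferInstanceAs (CommRing (G → k))
instance : Algebra k (F k G) := inferInstanceAs (Algebra k (G → k))
instance [Finite G] : IsSemisimpleRing (F k G) := inferInstanceAs (IsSemisimpleRing (G → k))

@[simp] theorem mul_ap (f g : F k G) (a : G) : (f * g) a = f a * g a := rfl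
@[simp] theorem add_ap (f g : F k G) (a : G) : (f + g) a = f a + g a := rfl
@[simp] theorem one_ap (a : G) : (1 : F k G) a = 1 := rfl
@[simp] theorem zero_ap (a : G) : (0 : F k G) a = 0 := rfl
@[simp] theorem smul_ap (r : k) (f : F k G) (a : G) : (r • f) a = r * f a := rfl

theorem fext {f g : F k G} (h : ∀ a, f a = g a) : f = g := funext h

variable [Fintype G]

noncomputable def b : Module.Basis G k (F k G) := Pi.basisFun k G

@[simp] theorem b_repr (f : F k G) (a : G) : b.repr f a = f a := Pi.basisFun_repr _ _ f a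
/-- Evaluation of a tensor at a pair. -/
noncomputable def ev (t : F k G ⊗[k] F k G) (x y : G) : k := (b.tensorProduct b).repr t (x, y)

@[simp] theorem ev_tmul (u v : F k G) (x y : G) : ev (u ⊗ₜ v) x y = u x * v y := by simp [ev, mul_comm]
@[simp] theorem ev_add (u v : F k G ⊗[k] F k G) (x y : G) : ev (u + v) x y = ev u x y + ev v x y := by simp [ev]
@[simp] theorem ev_zero (x y : G) : ev (0 : F k G ⊗[k] F k G) x y = 0 := by simp [ev]
theorem ev_ext {u v : F k G ⊗[k] F k G} (h : ∀ x y, ev u x y = ev v x y) : u = v :=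
  (b.tensorProduct b).ext_elem fun p => h p.1 p.2
theorem ev_mul (u v : F k G ⊗[k] F k G) (x y : G) : ev (u * v) x y = ev u x y * ev v x y := by
  induction u with
  | zero => simp
  | add a c p q => simp [add_mul, p, q]
  | tmul a c =>
    induction v with
    | zero => simp
    | add a c p q => simp [mul_add, p, q]
    | tmul a' c' => simp; ring

variable [Group G]

noncomputable def cm : F k G →ₗ[k] F k G ⊗[k] F k G :=
  (b.tensorProduct b).equivFun.symm.toLinearMap ∘ₗ (LinearMap.funLeft k k fun p : G × G => p.1 * p.2)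

@[simp] theorem ev_cm (f : F k G) (x y : G) : ev (cm f) x y = f (x * y) := by
  have := congrFun (((b (k := k)).tensorProduct (b (k := k))).equivFun.apply_symm_apply fun p : G × G => f (p.1 * p.2)) (x, y)
  exact this

noncomputable instance : Coalgebra k (F k G) where
  comul := cm
  counit := b.coord 1
  coassoc := by
    refine LinearMap.ext fun f => (b.tensorProduct (b.tensorProduct b)).ext_elem fun ⟨x, y, z⟩ => ?_
    have h1 : ∀ t, (b.tensorProduct (b.tensorProduct b)).repr (TensorProduct.assoc _ _ _ _ (cm.rTensor (F k G) t))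
        (x, y, z) = ev t (x * y) z := fun t => by
      induction t with
      | zero => simp
      | add a c p q => simp [p, q]
      | tmul u w =>
        rw [rTensor_tmul, ev_tmul, ← ev_cm u]
        induction cm u with
        | zero => simp
        | add a c p q => simp [add_tmul, add_mul, p, q]
        | tmul a c => simp; ring
    have h2 : ∀ t, (b.tensorProduct (b.tensorProduct b)).repr (cm.lTensor (F k G) t) (x, y, z) = ev t x (y * z) :=
      fun t => by
      induction t with
      | zero => simp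
      | add a c p q => simp [p, q]
      | tmul u w => rw [ev_tmul, ← ev_cm w]; simp [ev, mul_comm]
    simp [h1, h2, mul_assoc]
  rTensor_counit_comp_comul := by
    refine LinearMap.ext fun f => (TensorProduct.lid _ _).injective (fext fun y => ?_)
    have : ∀ t : F k G ⊗[k] F k G, TensorProduct.lid _ _ ((b.coord 1).rTensor (F k G) t) y = ev t 1 y := fun t => by
      induction t with
      | zero => simp
      | add a c p q => simp [p, q]
      | tmul u w => simp
    simp [this]
  lTensor_counit_comp_comul := by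
    refine LinearMap.ext fun f => (TensorProduct.rid _ _).injective (fext fun y => ?_)
    have : ∀ t : F k G ⊗[k] F k G, TensorProduct.rid _ _ ((b.coord 1).lTensor (F k G) t) y = ev t y 1 := fun t => by
      induction t with
      | zero => simp
      | add a c p q => simp [p, q]
      | tmul u w => simp [mul_comm]
    simp [this]

@[simp] theorem ev_comul (f : F k G) (x y : G) : ev (Coalgebra.comul f) x y = f (x * y) := ev_cm f x y
@[simp] theorem counit_ap (f : F k G) : Coalgebra.counit (R := k) f = f 1 := b_repr f 1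

noncomputable instance : Bialgebra k (F k G) :=
  Bialgebra.mk' _ _ (by simp) (by simp) (ev_ext fun x y => by simp [Algebra.TensorProduct.one_def])
    (ev_ext fun x y => by simp [ev_mul])

/-- The antipode. -/
def an : F k G →ₗ[k] F k G := LinearMap.funLeft k k fun g : G => g⁻¹

omit [Fintype G] in
@[simp] theorem an_ap (f : F k G) (x : G) : an f x = f x⁻¹ := rfl

noncomputable instance : HopfAlgebra k (F k G) where
  antipode := an
  mul_antipode_rTensor_comul := LinearMap.ext fun f => fext fun x => by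
    have : ∀ t : F k G ⊗[k] F k G, mul' _ _ (an.rTensor (F k G) t) x = ev t x⁻¹ x := fun t => by
      induction t with
      | zero => simp
      | add a c p q => simp [p, q]
      | tmul u w => simp
    simp [this, Algebra.algebraMap_eq_smul_one]
  mul_antipode_lTensor_comul := LinearMap.ext fun f => fext fun x => by
    have : ∀ t : F k G ⊗[k] F k G, mul' _ _ (an.lTensor (F k G) t) x = ev t x x⁻¹ := fun t => by
      induction t with
      | zero => simp
      | add a c p q => simp [p, q]
      | tmul u w => simp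
    simp [this, Algebra.algebraMap_eq_smul_one]

@[simp] theorem antipode_ap (f : F k G) (x : G) : HopfAlgebra.antipode k f x = f x⁻¹ := rfl

variable {S : Type} [Group S] [Fintype S] [DecidableEq S]

/-- Convolution matrix. -/
def C (α : S → k) : Matrix S S k := Matrix.of fun x y => α (x * y⁻¹)

omit [DecidableEq S] in
theorem C_comm {e : S → k} (he : ∀ x y, e (x * y) = e (y * x)) (α : S → k) : C e * C α = C α * C e := by
  ext x y
  simp only [C, Matrix.mul_apply, Matrix.of_apply]
  refine Fintype.sum_equiv (((Equiv.inv S).trans (Equiv.mulLeft y)).trans (Equiv.mulRight x)) _ _ fun w => ?_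
  simp only [Equiv.trans_apply, Equiv.inv_apply, Equiv.coe_mulLeft, Equiv.coe_mulRight]
  rw [mul_comm, he (y * w⁻¹ * x), he x]
  congr 2 <;> group

/-- Diagonal matrix of a function pulled back along `φ`. -/
def E (φ : S →* G) : F k G →ₐ[k] Matrix S S k :=
  (Matrix.diagonalAlgHom k).comp (AlgHom.pi fun x => Pi.evalAlgHom _ (fun _ => k) (φ x))

omit [Fintype G] in
theorem E_ap (φ : S →* G) (f : F k G) : E φ f = Matrix.diagonal fun x => f (φ x) := rfl

/-- The candidate representation. -/
def π (φ : S →* G) (e : S → k) : F k G →ₗ[k] Matrix S S k where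
  toFun f := C e * E φ f * C e + f 1 • (1 - C e)
  map_add' f g := by simp [mul_add, add_mul, add_smul]; abel
  map_smul' r f := by simp [mul_smul]

omit [Fintype G] in
theorem π_ap (φ : S →* G) (e : S → k) (f : F k G) : π φ e f = C e * E φ f * C e + f 1 • (1 - C e) := rfl

theorem pm {B : Type} [Ring B] [Algebra k B] {T : B} (hT : T * T = T) (X Y : B) (r s : k) :
    (T * X * T + r • (1 - T)) * (T * Y * T + s • (1 - T)) = T * (X * T * Y) * T + (r * s) • (1 - T) := by
  have T1 : ∀ X, T * (T * X) = T * X := fun X => by rw [← mul_assoc, hT]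
  simp only [mul_add, add_mul, mul_sub, sub_mul, mul_assoc, hT, T1, mul_smul_comm, smul_mul_assoc, one_mul, mul_one,
    sub_self, smul_zero, add_zero, add_sub_cancel_left, smul_smul, mul_comm s]

theorem key (φ : S →* G) {e : S → k} (hT : C e * C e = C e)
    (h κ l : F k G) : mul' k _ (TensorProduct.map (π φ e ∘ₗ mulLeft k h)
      (π φ e ∘ₗ mulRight k l ∘ₗ HopfAlgebra.antipode k) (Coalgebra.comul κ)) =
    C e * E φ h * C (fun x => κ (φ x) * e x) * E φ l * C e + (h 1 * κ 1 * l 1) • (1 - C e) := by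
  have : ∀ t : F k G ⊗[k] F k G, mul' k _ (TensorProduct.map (π φ e ∘ₗ mulLeft k h)
      (π φ e ∘ₗ mulRight k l ∘ₗ HopfAlgebra.antipode k) t) =
      C e * E φ h * (Matrix.of fun x y => ev t (φ x) (φ y)⁻¹ * e (x * y⁻¹)) * E φ l * C e +
        (h 1 * ev t 1 1 * l 1) • (1 - C e) := fun t => by
    induction t with
    | zero => simp [show (Matrix.of fun _ _ => 0 : Matrix S S k) = 0 from rfl]
    | add a c p q =>
      rw [map_add, map_add, p, q, show (Matrix.of fun x y => ev (a + c) (φ x) (φ y)⁻¹ * e (x * y⁻¹)) =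
        (Matrix.of fun x y => ev a (φ x) (φ y)⁻¹ * e (x * y⁻¹)) + Matrix.of fun x y =>
          ev c (φ x) (φ y)⁻¹ * e (x * y⁻¹) from Matrix.ext fun x y => by simp [add_mul]]
      simp only [ev_add, mul_add, add_mul, add_smul]; abel
    | tmul u w =>
      rw [show (Matrix.of fun x y => ev (u ⊗ₜ w) (φ x) (φ y)⁻¹ * e (x * y⁻¹)) = E φ u * C e *
        E φ (HopfAlgebra.antipode k w) from Matrix.ext fun x y => by simp [E_ap, C]; ring]
      simp only [TensorProduct.map_tmul, mul'_apply, comp_apply, π_ap, pm hT]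
      simp only [mulLeft_apply, mulRight_apply, map_mul, mul_assoc, mul_ap, antipode_ap, inv_one, ev_tmul]
  rw [this]
  simp [C]

theorem rels (φ : S →* G) {e : S → k} (he : ∀ x y, e (x * y) = e (y * x)) (hT : C e * C e = C e) (h κ : F k G) :
    π φ e h * mul' k _ (TensorProduct.map (π φ e) (π φ e ∘ₗ HopfAlgebra.antipode k)
      (Coalgebra.comul κ)) = mul' k _ (TensorProduct.map (π φ e ∘ₗ mulLeft k h)
        (π φ e ∘ₗ HopfAlgebra.antipode k) (Coalgebra.comul κ)) ∧
    mul' k _ (TensorProduct.map (π φ e) (π φ e ∘ₗ HopfAlgebra.antipode k)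
      (Coalgebra.comul h)) * π φ e κ = mul' k _ (TensorProduct.map (π φ e)
        (π φ e ∘ₗ mulRight k κ ∘ₗ HopfAlgebra.antipode k) (Coalgebra.comul h)) := by
  have a1 := key φ hT 1 κ 1
  have a2 := key φ hT h κ 1
  have a3 := key φ hT 1 h 1
  have a4 := key φ hT 1 h κ
  simp only [mulLeft_one, mulRight_one, id_comp, comp_id, map_one, mul_one, one_ap, one_mul] at a1 a2 a3 a4
  rw [a1, a2, a3, a4, π_ap, π_ap, pm hT, pm hT]
  constructor
  · congr 1
    simp only [mul_assoc]
    rw [← mul_assoc (C e) (C fun _ => _), C_comm he, mul_assoc, hT]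
  · congr 1
    simp only [← mul_assoc]
    rw [mul_assoc (C e) (C fun _ => _), ← C_comm he, ← mul_assoc, hT]

theorem C_single (u v : S) : C (k := k) (Pi.single u 1) * C (Pi.single v 1) = C (Pi.single (u * v) 1) := by
  ext x y
  simp only [C, Matrix.mul_apply, Matrix.of_apply]
  rw [Finset.sum_eq_single (v * y) (fun w _ n => by
    rw [Pi.single_eq_of_ne (i := v) (fun e => n (by rw [← e]; group)) , mul_zero]) (by simp)]
  simp only [mul_inv_cancel_right, Pi.single_eq_same, mul_one, Pi.single_apply]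
  congr 1
  exact propext ⟨fun h => by rw [← h]; group, fun h => by rw [mul_inv_rev, ← mul_assoc, h]; group⟩

theorem step [DecidableEq G] (φ : S →* G) {e : S → k} {z : S} (hk : ∀ x, φ x = 1 ↔ x = 1 ∨ x = z)
    (u : S) (h1 : e u = 1) (h2 : e (z * u) = 0) (g : G) :
    E φ (Pi.single (φ u * g) 1) * C e * E φ (Pi.single g 1) = C (Pi.single u 1) * E φ (Pi.single g 1) := by
  ext x y
  simp only [E_ap, C, Matrix.mul_diagonal, Matrix.diagonal_mul, Matrix.of_apply, Pi.single_apply]
  split_ifs with a c c' _ d <;> try simp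
  · rw [c', h1]
  · rcases (hk (x * y⁻¹ * u⁻¹)).1 (by simp [a, c]) with q | q
    · exact (c' (mul_inv_eq_one.1 q)).elim
    · rw [mul_inv_eq_iff_eq_mul.1 q, h2]
  · exact a (by rw [← d, ← ‹x * y⁻¹ = u›]; simp)

theorem wit [CharP k 2] (φ : S →* G) {e : S → k} {z : S} (he : ∀ x y, e (x * y) = e (y * x)) (hT : C e * C e = C e)
    (hk : ∀ x, φ x = 1 ↔ x = 1 ∨ x = z) (z1 : z ≠ 1) (u v w : S) (hu : e u = 1)
    (hu' : e (z * u) = 0) (hv : e v = 1) (hv' : e (z * v) = 0) (hw : e w = 1) (hw' : e (z * w) = 0)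
    (hi : e u⁻¹ = 1) (hi' : e (z * u⁻¹) = 0) (hp : u * v * w = z) (w1 : φ w ≠ 1) (u1 : φ u⁻¹ ≠ 1) :
    ∃ N D : Matrix S S k, (∀ h, Commute N (π φ e h)) ∧ Commute N D ∧ N * N = 0 ∧ N * D ≠ 0 ∧
      ∃ p q r s : F k G, π φ e p * π φ e q * π φ e p + π φ e p * π φ e r * π φ e s * π φ e p = N * D := by
  classical
  have zz : z * z = 1 := ((hk _).1 (by rw [map_mul, (hk z).2 (Or.inr rfl), mul_one])).resolve_right
    fun q => z1 (mul_left_cancel (q.trans (mul_one z).symm))
  have c1 : C (k := k) (Pi.single (1 : S) 1) = 1 := by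
    ext x y; simp [C, Pi.single_apply, Matrix.one_apply, mul_inv_eq_one]
  have cT : Commute (C (Pi.single z 1)) (C e) := (C_comm he _).symm
  have cE : ∀ f : F k G, Commute (C (Pi.single z 1)) (E φ f) := fun f => by
    ext x y
    simp only [E_ap, C, Matrix.mul_diagonal, Matrix.diagonal_mul, Matrix.of_apply, Pi.single_apply]
    split_ifs with q
    · rw [mul_inv_eq_iff_eq_mul.1 q, map_mul, (hk z).2 (Or.inr rfl), one_mul, one_mul, mul_one]
    · simp
  refine ⟨1 + C (Pi.single z 1), C e * E φ (Pi.single 1 1) * C e, fun h => (Commute.one_left _).add_left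
    (((cT.mul_right (cE h)).mul_right cT).add_right (((Commute.one_right _).sub_right cT).smul_right _)),
    (Commute.one_left _).add_left ((cT.mul_right (cE _)).mul_right cT), ?_, fun q => ?_,
    Pi.single 1 1, Pi.single (φ u⁻¹) 1, Pi.single (φ v * φ w) 1, Pi.single (φ w) 1, ?_⟩
  · rw [add_mul, mul_add, mul_add, C_single, zz, c1]
    ext x y
    simp only [one_mul, mul_one, Matrix.add_apply, Matrix.zero_apply]
    rw [add_comm (C _ x y), CharTwo.add_self_eq_zero]
  · have := congrFun (congrFun q u) u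
    rw [← mul_assoc, ← mul_assoc, Matrix.mul_apply, Finset.sum_eq_add 1 z z1.symm
      (fun c _ n => by simp [E_ap, Pi.single_apply, hk, n.1, n.2]) (by simp) (by simp)] at this
    have zi : z⁻¹ = z := inv_eq_of_mul_eq_one_right zz
    have m : ∀ y, (C (Pi.single z 1) * C e : Matrix S S k) u y = e (z * u * y⁻¹) := fun y => by
      rw [Matrix.mul_apply, Finset.sum_eq_single (z * u) (fun c _ n => by
        simp only [C, Matrix.of_apply]
        rw [Pi.single_eq_of_ne (i := z) (fun e => n (by
          rw [← zi, ← e, mul_inv_rev, inv_inv, inv_mul_cancel_right])), zero_mul]) (by simp)]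
      simp [C, zi]
    simp only [E_ap, Matrix.mul_diagonal, add_mul, one_mul, Matrix.add_apply, m] at this
    simp [C, (hk z).2 (Or.inr rfl), hu, hu', hi, hi'] at this
  · have s1 := step φ hk u hu hu' (φ u⁻¹)
    have s2 := step φ hk u⁻¹ hi hi' 1
    have s3 := step φ hk u hu hu' (φ v * φ w)
    have s4 := step φ hk v hv hv' (φ w)
    have s5 := step φ hk w hw hw' 1
    rw [← map_mul, mul_inv_cancel, map_one] at s1
    rw [← mul_assoc, ← map_mul, ← map_mul, hp, (hk z).2 (Or.inr rfl)] at s3
    rw [mul_one] at s2 s5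
    simp only [π_ap]
    rw [pm hT, pm hT, pm hT, pm hT, pm hT, s1, s3]
    have e1 : (Pi.single (φ u⁻¹) 1 : F k G) 1 = 0 := Pi.single_eq_of_ne u1.symm _
    have e2 : (Pi.single (φ w) 1 : F k G) 1 = 0 := Pi.single_eq_of_ne w1.symm _
    rw [e1, e2, mul_assoc (C (Pi.single u 1)), mul_assoc (C (Pi.single u 1)), s2, mul_assoc (C (Pi.single u 1)),
      mul_assoc (C (Pi.single u 1)), s4, ← mul_assoc (C (Pi.single u 1)), ← mul_assoc (C (Pi.single u 1)), C_single,
      C_single, mul_assoc (C (Pi.single (u * v) 1)), mul_assoc (C (Pi.single (u * v) 1)), s5,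
      ← mul_assoc (C (Pi.single (u * v) 1)), C_single, hp, mul_inv_cancel, c1, ← mul_assoc (C e), ← mul_assoc (C e),
      ← cT.eq]
    simp [add_mul, mul_assoc]

/-- The group `SL(2,5)`. -/
def SL : Type := {v : ZMod 5 × ZMod 5 × ZMod 5 × ZMod 5 // v.1 * v.2.2.2 - v.2.1 * v.2.2.1 = 1}

instance : Fintype SL := inferInstanceAs (Fintype {v : ZMod 5 × ZMod 5 × ZMod 5 × ZMod 5 // _})
instance : DecidableEq SL := inferInstanceAs (DecidableEq {v : ZMod 5 × ZMod 5 × ZMod 5 × ZMod 5 // _})
instance : Mul SL := ⟨fun a c => ⟨(a.1.1 * c.1.1 + a.1.2.1 * c.1.2.2.1, a.1.1 * c.1.2.1 + a.1.2.1 * c.1.2.2.2,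
  a.1.2.2.1 * c.1.1 + a.1.2.2.2 * c.1.2.2.1, a.1.2.2.1 * c.1.2.1 + a.1.2.2.2 * c.1.2.2.2), by
    linear_combination (c.1.1 * c.1.2.2.2 - c.1.2.1 * c.1.2.2.1) * a.2 + c.2⟩⟩
instance : One SL := ⟨⟨(1, 0, 0, 1), by decide⟩⟩
instance : Inv SL := ⟨fun a => ⟨(a.1.2.2.2, -a.1.2.1, -a.1.2.2.1, a.1.1), by linear_combination a.2⟩⟩
theorem mv (a c : SL) : (a * c).1 = (a.1.1 * c.1.1 + a.1.2.1 * c.1.2.2.1, a.1.1 * c.1.2.1 + a.1.2.1 * c.1.2.2.2,
  a.1.2.2.1 * c.1.1 + a.1.2.2.2 * c.1.2.2.1, a.1.2.2.1 * c.1.2.1 + a.1.2.2.2 * c.1.2.2.2) := rfl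
instance : Group SL := Group.ofLeftAxioms
  (fun a c d => Subtype.ext (by simp only [mv, Prod.mk.injEq]; refine ⟨?_, ?_, ?_, ?_⟩ <;> ring))
  (by decide +kernel) (by decide +kernel)

/-- A block idempotent of `SL(2,5)` in characteristic two. -/
def ee (a : SL) : ZMod 2 := if a.1.1 + a.1.2.2.2 = 4 ∨ (a.1.1 + a.1.2.2.2 = 2 ∧ a ≠ 1) then 1 else 0

def zz : SL := ⟨(4, 0, 0, 4), by decide⟩

theorem ee_c : ∀ x y, ee (x * y) = ee (y * x) := by decide +kernel
theorem ee_i : ∀ x, ∑ u, ee (x * u⁻¹) * ee u = ee x := by decide +kernel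
theorem cen : ∀ c : SL, (∀ g, g * c = c * g) ↔ c = 1 ∨ c = zz := by decide +kernel


theorem main (k : Type) [Field k] [CharP k 2] : ∃ (G : Type) (_ : Group G) (_ : Fintype G) (φ : SL →* G)
    (e : SL → k), (∀ x y, e (x * y) = e (y * x)) ∧ C e * C e = C e ∧
    ∃ N D : Matrix SL SL k, (∀ h, Commute N (π φ e h)) ∧ Commute N D ∧ N * N = 0 ∧ N * D ≠ 0 ∧
      ∃ p q r s : F k G, π φ e p * π φ e q * π φ e p + π φ e p * π φ e r * π φ e s * π φ e p = N * D := by
  let c := ZMod.castHom (dvd_refl 2) k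
  have he : ∀ x y, c (ee (x * y)) = c (ee (y * x)) := fun x y => by rw [ee_c]
  have hT : (C fun x => c (ee x)) * (C fun x => c (ee x)) = C fun x => c (ee x) := by
    ext x y
    simp only [C, Matrix.mul_apply, Matrix.of_apply, ← ee_i (x * y⁻¹), map_sum, map_mul]
    exact Fintype.sum_equiv (Equiv.mulRight y⁻¹) _ _ fun w => by simp [mul_assoc]
  have hk : ∀ x, QuotientGroup.mk' (Subgroup.center SL) x = 1 ↔ x = 1 ∨ x = zz := fun x => by
    rw [← cen, QuotientGroup.mk'_apply, QuotientGroup.eq_one_iff, Subgroup.mem_center_iff]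
  have o : ∀ x, ee x = 1 → c (ee x) = 1 := fun x h => by rw [h, map_one]
  have n : ∀ x, ee x = 0 → c (ee x) = 0 := fun x h => by rw [h, map_zero]
  refine ⟨SL ⧸ Subgroup.center SL, inferInstance, Fintype.ofFinite _, QuotientGroup.mk' _, _, he, hT,
    wit _ he hT hk (by decide) ⟨(0, 1, 4, 2), by decide⟩ ⟨(0, 1, 4, 4), by decide⟩ ⟨(3, 4, 3, 1), by decide⟩
      (o _ ?_) (n _ ?_) (o _ ?_) (n _ ?_) (o _ ?_) (n _ ?_) (o _ ?_) (n _ ?_) ?_ (mt (hk _).1 ?_) (mt (hk _).1 ?_)⟩ <;>
    decide +kernel

end Pool.Agent.H.MP_57c94c_al
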